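import Pool.Agent.H34.PS.Defs

/-!
# Sums of two non-square powerful numbers: targets (helper34)

Main theorem: for almost all pairs `(y, w)` the number `β^3 (y^2 + w^2)` (`β` a non-square sum of
two squares, for example `β = 2`) is a sum of two non-square powerful numbers but not the sum of a
positive square and a non-square powerful number.
-/

set_option autoImplicit false

open Finset

namespace Pool.Agent.H34.PS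

open Classical in
/-- PW: the shape of non-square powerful numbers. -/
def T_PW : Prop :=
  (∀ c : ℕ, NSP c → ∃ b v : ℕ, 2 ≤ b ∧ Squarefree b ∧ 1 ≤ v ∧ c = b ^ 3 * v ^ 2) ∧
  (∀ β y : ℕ, ¬ IsSquare β → 1 ≤ y → NSP (β ^ 3 * y ^ 2))

/-- EX: a prime `q ≡ 1 (mod 4)` which divides `x^2 + b^3 v^2` exactly once. -/
def T_EX : Prop :=
  ∀ q b x v n : ℕ, q.Prime → q % 4 = 1 → n = x ^ 2 + b ^ 3 * v ^ 2 → Exa q n →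
    chi (b : ℤ) q = 1

/-- JM: the characters. -/
def T_JM : Prop :=
  ∀ (b : ℕ) (D : ℤ), Dok b D →
    (∀ m n : ℕ, chi D (m * n) = chi D m * chi D n) ∧ chi D 1 = 1 ∧ chi D 0 = 0 ∧
    (∀ n : ℕ, |chi D n| ≤ 1) ∧ (∀ n : ℕ, chi D (n + 4 * b) = chi D n) ∧
    ∑ n ∈ range (4 * b), chi D n = 0

/-- LB: upper bound for a series with periodic coefficients of mean 0. -/
def T_LB : Prop :=
  ∀ (f : ℕ → ℝ) (N : ℕ), 1 ≤ N → (∀ n, |f n| ≤ 1) → (∀ n, f (n + N) = f n) →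
    ∑ n ∈ range N, f n = 0 → ∀ σ : ℝ, 1 < σ →
    ∑' n : ℕ, f n * (n : ℝ) ^ (-σ) ≤ 2 + Real.log N

/-- EP: the Euler product of a completely multiplicative function. -/
def T_EP : Prop :=
  ∀ f : ℕ → ℝ, f 0 = 0 → f 1 = 1 → (∀ m n, f (m * n) = f m * f n) → (∀ n, |f n| ≤ 1) →
    ∀ σ : ℝ, 1 < σ →
    (Summable fun p : Nat.Primes => f p * ((p : ℕ) : ℝ) ^ (-σ)) ∧
    0 < ∑' n : ℕ, f n * (n : ℝ) ^ (-σ) ∧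
    ∑' p : Nat.Primes, f p * ((p : ℕ) : ℝ) ^ (-σ) ≤
      Real.log (∑' n : ℕ, f n * (n : ℝ) ^ (-σ)) ∧
    Real.log (∑' n : ℕ, f n * (n : ℝ) ^ (-σ)) ≤
      ∑' p : Nat.Primes, f p * ((p : ℕ) : ℝ) ^ (-σ) + 1

/-- ZT: the zeta function to the right of 1, and the series of `χ₄`. -/
def T_ZT : Prop :=
  (∀ η : ℝ, 0 < η → 1 / η ≤ ∑' n : ℕ, (n : ℝ) ^ (-(1 + η)) ∧
    ∑' n : ℕ, (n : ℝ) ^ (-(1 + η)) ≤ 1 + 1 / η) ∧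
  (∀ σ : ℝ, 1 < σ → 1 / 2 ≤ ∑' n : ℕ, chi (-1) n * (n : ℝ) ^ (-σ))

/-- MU: the primes `p ≡ 1 (mod 4)` modulo which `b` is a square. -/
def T_MU : Prop :=
  ∀ b : ℕ, 2 ≤ b → Squarefree b → ∀ η : ℝ, 0 < η → η ≤ 1 →
    ∑' p : Nat.Primes, (if (p : ℕ) % 4 = 1 ∧ chi (b : ℤ) p = 1 then
      ((p : ℕ) : ℝ) ^ (-(1 + η)) else 0) ≤
      (1 / 4) * (Real.log (1 + 1 / η) + Real.log (2 + Real.log 4) +
        2 * Real.log (2 + Real.log (4 * b)))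

/-- ML: all primes `p ≡ 1 (mod 4)`. -/
def T_ML : Prop :=
  ∀ η : ℝ, 0 < η → η ≤ 1 →
    (1 / 2) * Real.log (1 / η) - 2 ≤
    ∑' p : Nat.Primes, (if (p : ℕ) % 4 = 1 then ((p : ℕ) : ℝ) ^ (-(1 + η)) else 0)

/-- KQ: many primes `q ≡ 1 (mod 4)` modulo which `b` is not a (non-zero) square. -/
def T_KQ : Prop :=
  ∀ b : ℕ, 2 ≤ b → Squarefree b → ∀ (N₀ : ℕ) (K : ℝ), ∃ S : Finset ℕ,
    (∀ q ∈ S, q.Prime ∧ q % 4 = 1 ∧ N₀ < q ∧ chi (b : ℤ) q ≠ 1) ∧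
    K ≤ ∑ q ∈ S, (1 : ℝ) / (q : ℝ)

open Classical in
/-- KD: the density of the pairs for which no prime of `S` divides `y^2 + w^2` exactly. -/
def T_KD : Prop :=
  ∀ S : Finset ℕ, (∀ q ∈ S, q.Prime ∧ q % 4 = 1) → ∃ Y₀ : ℕ, ∀ Y ≥ Y₀,
    (((Icc 1 Y ×ˢ Icc 1 Y).filter fun a : ℕ × ℕ =>
      ∀ q ∈ S, ¬ Exa q (a.1 ^ 2 + a.2 ^ 2)).card : ℝ) ≤
      2 * Real.exp (-∑ q ∈ S, (1 : ℝ) / (q : ℝ)) * (Y : ℝ) ^ 2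

open Classical in
/-- SB: a fixed `b` is harmless. -/
def T_SB : Prop :=
  ∀ β : ℕ, 1 ≤ β → ∀ b : ℕ, 2 ≤ b → Squarefree b → ∀ ε : ℝ, 0 < ε → ∃ Y₀ : ℕ, ∀ Y ≥ Y₀,
    (((Icc 1 Y ×ˢ Icc 1 Y).filter fun a : ℕ × ℕ =>
      ∃ x v : ℕ, β ^ 3 * (a.1 ^ 2 + a.2 ^ 2) = x ^ 2 + b ^ 3 * v ^ 2).card : ℝ) ≤
      ε * (Y : ℝ) ^ 2

/-- RA: the number of square roots, reduction to coprime arguments. -/
def T_RA : Prop :=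
  ∀ D d : ℕ, 1 ≤ D → 1 ≤ d → rho D d = 0 ∨ ∃ f g e : ℕ, d = f ^ 2 * g * e ∧ f ^ 2 * g ∣ D ∧
    Squarefree g ∧ Nat.Coprime e (D / f ^ 2) ∧ rho D d ≤ f * rho (D / f ^ 2) e

/-- RB: the number of square roots, coprime arguments. -/
def T_RB : Prop :=
  ∀ b h e : ℕ, 2 ≤ b → Squarefree b → 1 ≤ h → 1 ≤ e → Nat.Coprime e (b * h ^ 2) →
    (rho (b * h ^ 2) e : ℝ) ≤ 4 * ∑ t ∈ (op e).divisors, chi (b : ℤ) t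

/-- RC: the sum of the convolution of 1 and a character. -/
def T_RC : Prop :=
  ∀ b : ℕ, 2 ≤ b → Squarefree b →
    (∀ e : ℕ, 0 ≤ ∑ t ∈ e.divisors, chi (b : ℤ) t) ∧
    (∀ y : ℕ, ∑ e ∈ Icc 1 y, ∑ t ∈ e.divisors, chi (b : ℤ) t ≤
      (y : ℝ) * (2 + Real.log (4 * b))) ∧
    (∀ y : ℕ, ∑ e ∈ Icc 1 y, ∑ t ∈ (op e).divisors, chi (b : ℤ) t ≤
      2 * (y : ℝ) * (2 + Real.log (4 * b)))

/-- RD: the average of the number of square roots of `b^3 v^2`. -/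
def T_RD : Prop :=
  ∀ b v y : ℕ, 2 ≤ b → Squarefree b → 1 ≤ v →
    ∑ d ∈ Icc 1 y, (rho (b ^ 3 * v ^ 2) d : ℝ) ≤
      8 * (2 + Real.log (4 * b)) * sg (b * v) ^ 2 * (y : ℝ)

/-- SG: the sum of the reciprocals of the divisors. -/
def T_SG : Prop :=
  (∀ m n : ℕ, 1 ≤ m → 1 ≤ n → sg (m * n) ≤ sg m * sg n) ∧
  (∀ n : ℕ, 1 ≤ n → sg n ≤ 1 + Real.log n) ∧
  (∀ V : ℕ, ∑ v ∈ Icc 1 V, sg v ^ 2 ≤ 9 * (V : ℝ))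

/-- NT: solutions of `y^2 + w^2 = x^2 + D`. -/
def T_NT : Prop :=
  ∀ (D Z : ℕ) (K : ℝ), 1 ≤ Z → ¬ IsSquare D →
    (∀ y : ℕ, ∑ d ∈ Icc 1 y, (rho D d : ℝ) ≤ K * (y : ℝ)) →
    (((range (Z + 1) ×ˢ range (Z + 1) ×ˢ range (Z + 1)).filter fun a : ℕ × ℕ × ℕ =>
      a.2.1 ^ 2 + a.2.2 ^ 2 = a.1 ^ 2 + D).card : ℝ) ≤ 6 * K * (Z : ℝ)

/-- DM: solutions of `y^2 + w^2 = x^2 + b^3 v^2`, uniformly in `b`. -/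
def T_DM : Prop :=
  ∀ b Z : ℕ, 2 ≤ b → Squarefree b → 1 ≤ Z →
    (((range (Z + 1) ×ˢ Icc 1 Z ×ˢ range (Z + 1) ×ˢ range (Z + 1)).filter
      fun a : ℕ × ℕ × ℕ × ℕ =>
      a.2.2.1 ^ 2 + a.2.2.2 ^ 2 = a.1 ^ 2 + b ^ 3 * a.2.1 ^ 2).card : ℝ) ≤
      700 * (Z : ℝ) ^ 2 * ((2 + Real.log (4 * b)) * (1 + Real.log b) ^ 2 /
        (b : ℝ) ^ (3 / 2 : ℝ))

open Classical in
/-- LG: the large `b` together. -/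
def T_LG : Prop :=
  ∀ β s t : ℕ, 1 ≤ β → β = s ^ 2 + t ^ 2 → ∀ ε : ℝ, 0 < ε → ∃ B₁ : ℕ, ∀ Y : ℕ,
    (((Icc 1 Y ×ˢ Icc 1 Y).filter fun a : ℕ × ℕ => ∃ b x v : ℕ, B₁ < b ∧ Squarefree b ∧ 1 ≤ v ∧
      β ^ 3 * (a.1 ^ 2 + a.2 ^ 2) = x ^ 2 + b ^ 3 * v ^ 2).card : ℝ) ≤ ε * (Y : ℝ) ^ 2

open Classical in
/-- FN: almost all numbers `β^3 (y^2 + w^2)` are in `SA` and not in `SB`. -/
def T_FN : Prop :=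
  ∀ β s t : ℕ, ¬ IsSquare β → β = s ^ 2 + t ^ 2 →
    (∀ y w : ℕ, 1 ≤ y → 1 ≤ w → β ^ 3 * (y ^ 2 + w ^ 2) ∈ SA) ∧
    ∀ ε : ℝ, 0 < ε → ∃ Y₀ : ℕ, ∀ Y ≥ Y₀,
    (((Icc 1 Y ×ˢ Icc 1 Y).filter fun a : ℕ × ℕ =>
      β ^ 3 * (a.1 ^ 2 + a.2 ^ 2) ∈ SB).card : ℝ) ≤ ε * (Y : ℝ) ^ 2

/-- ME: the multiplicative energy of an interval. -/
def T_ME : Prop :=
  ∀ N : ℕ, 1 ≤ N → (((Icc 1 N ×ˢ Icc 1 N ×ˢ Icc 1 N ×ˢ Icc 1 N).filter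
    fun a : ℕ × ℕ × ℕ × ℕ => a.1 * a.2.1 = a.2.2.1 * a.2.2.2).card : ℝ) ≤
    2 * (N : ℝ) ^ 2 * (1 + Real.log N)

/-- EN: the second moment of the number of representations as a sum of two squares. -/
def T_EN : Prop :=
  ∀ Y : ℕ, 1 ≤ Y → (((Icc 1 Y ×ˢ Icc 1 Y ×ˢ Icc 1 Y ×ˢ Icc 1 Y).filter
    fun a : ℕ × ℕ × ℕ × ℕ => a.1 ^ 2 + a.2.1 ^ 2 = a.2.2.1 ^ 2 + a.2.2.2 ^ 2).card : ℝ) ≤
    17 * (Y : ℝ) ^ 2 * (1 + Real.log (2 * Y))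

open Classical in
/-- CT: the number of elements of `SA` which are not in `SB`. -/
def T_CT : Prop :=
  ∃ c : ℝ, 0 < c ∧ ∃ X₀ : ℕ, ∀ X ≥ X₀, c * (X : ℝ) / Real.log X ≤
    (((Icc 1 X).filter fun n : ℕ => n ∈ SA ∧ n ∉ SB).card : ℝ)

end Pool.Agent.H34.PS
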