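import Mathlib

/-!
# Sums of two non-square powerful numbers: definitions (helper34)
-/

set_option autoImplicit false

open Finset

namespace Pool.Agent.H34.PS

/-- powerful numbers -/
def Pw (m : ℕ) : Prop := 0 < m ∧ ∀ p : ℕ, p.Prime → p ∣ m → p ^ 2 ∣ m

/-- non-square powerful numbers -/
def NSP (m : ℕ) : Prop := Pw m ∧ ¬ IsSquare m

/-- the sums of two non-square powerful numbers -/
def SA : Set ℕ := {n | ∃ a b, NSP a ∧ NSP b ∧ n = a + b}

/-- the sums of a positive square and a non-square powerful number -/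
def SB : Set ℕ := {n | ∃ x c, 1 ≤ x ∧ NSP c ∧ n = x ^ 2 + c}

/-- the quadratic character of `D` on odd numbers -/
noncomputable def chi (D : ℤ) (n : ℕ) : ℝ := if n % 2 = 1 then (jacobiSym D n : ℝ) else 0

/-- the pairs `b, D` which are used: `D = b` or `D = -b` with `b ≥ 2` squarefree, and `D = -1` -/
def Dok (b : ℕ) (D : ℤ) : Prop :=
  (2 ≤ b ∧ Squarefree b ∧ (D = (b : ℤ) ∨ D = -(b : ℤ))) ∨ (b = 1 ∧ D = -1)

/-- the number of square roots of `D` modulo `d` -/
def rho (D d : ℕ) : ℕ := ((range d).filter fun w => w ^ 2 ≡ D [MOD d]).card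

/-- the sum of the reciprocals of the divisors -/
noncomputable def sg (n : ℕ) : ℝ := ∑ t ∈ n.divisors, (1 : ℝ) / (t : ℝ)

/-- the odd part of `e` -/
def op (e : ℕ) : ℕ := e / 2 ^ e.factorization 2

/-- `q` divides `m` exactly once -/
def Exa (q m : ℕ) : Prop := q ∣ m ∧ ¬ q ^ 2 ∣ m

end Pool.Agent.H34.PS
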