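import Pool.Agent.H34.PSQ.PW
import Pool.Agent.H34.PSQ.EX
import Pool.Agent.H34.PSQ.CT
import Pool.Agent.H11.PSQ.DM
import Pool.Agent.H11.PSQ.FN
import Pool.Agent.H5.PSQ.ME
import Pool.Agent.H5.PSQ.EN
import Pool.Agent.H94.PSQ.EP
import Pool.Agent.H20.PSQ.JM
import Pool.Agent.H20.PSQ.KD
import Pool.Agent.H75.PSQ.KQ
import Pool.Agent.H75.PSQ.SB
import Pool.Agent.H1.PSQ.LB
import Pool.Agent.H1.PSQ.RB
import Pool.Agent.H1.PSQ.RC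
import Pool.Agent.H32.PSQ.LG
import Pool.Agent.H32.PSQ.NT
import Pool.Agent.H32.PSQ.SG
import Pool.Agent.H79.PSQ.ML
import Pool.Agent.H7.PSQ.MU
import Pool.Agent.H2.PSQ.RD
import Pool.Agent.H52.PS.RA
import Pool.Agent.H52.PS.ZT

/-!
# Sums of two non-square powerful numbers: assembly (helper34)
-/

set_option autoImplicit false

open Finset Filter Topology

namespace Pool.Agent.H34.PS

theorem a_JM : T_JM := Pool.Agent.H20.PSQ.pf_JM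
theorem a_ZT : T_ZT := Pool.Agent.H52.PS.pf_ZT
theorem a_MU : T_MU := Pool.Agent.H7.PSQ.pf_MU a_JM Pool.Agent.H1.PSQ.pf_LB
  Pool.Agent.H94.PSQ.pf_EP a_ZT
theorem a_ML : T_ML := Pool.Agent.H79.PSQ.pf_ML a_JM Pool.Agent.H94.PSQ.pf_EP a_ZT
theorem a_KQ : T_KQ := Pool.Agent.H75.PSQ.pf_KQ a_MU a_ML
theorem a_SB : T_SB := Pool.Agent.H75.PSQ.pf_SB Pool.Agent.H34.PSQ.pf_EX a_KQ
  Pool.Agent.H20.PSQ.pf_KD
theorem a_RD : T_RD := Pool.Agent.H2.PSQ.pf_RD Pool.Agent.H52.PS.pf_RA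
  Pool.Agent.H1.PSQ.pf_RB (Pool.Agent.H1.PSQ.pf_RC a_JM)
theorem a_DM : T_DM := Pool.Agent.H11.PSQ.pf_DM a_RD Pool.Agent.H32.PSQ.pf_SG
  Pool.Agent.H32.PSQ.pf_NT
theorem a_LG : T_LG := Pool.Agent.H32.PSQ.pf_LG a_DM
theorem a_FN : T_FN := Pool.Agent.H11.PSQ.pf_FN Pool.Agent.H34.PSQ.pf_PW a_SB a_LG
theorem a_EN : T_EN := Pool.Agent.H5.PSQ.pf_EN Pool.Agent.H5.PSQ.pf_ME
theorem a_CT : T_CT := Pool.Agent.H34.PSQ.pf_CT a_FN a_EN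

open Classical in
theorem main :
    (∀ β s t : ℕ, ¬ IsSquare β → β = s ^ 2 + t ^ 2 →
      Tendsto (fun Y : ℕ => (((Icc 1 Y ×ˢ Icc 1 Y).filter fun a : ℕ × ℕ =>
        β ^ 3 * (a.1 ^ 2 + a.2 ^ 2) ∈ SA ∧ β ^ 3 * (a.1 ^ 2 + a.2 ^ 2) ∉ SB).card : ℝ) /
          (Y : ℝ) ^ 2) atTop (𝓝 1)) ∧
    ∃ c : ℝ, 0 < c ∧ ∃ X₀ : ℕ, ∀ X ≥ X₀, c * (X : ℝ) / Real.log X ≤
      (((Icc 1 X).filter fun n : ℕ => n ∈ SA ∧ n ∉ SB).card : ℝ) := by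
  refine ⟨?_, a_CT⟩
  intro β s t hβ hst
  obtain ⟨hSA, hF⟩ := a_FN β s t hβ hst
  rw [Metric.tendsto_atTop]
  intro ε hε
  obtain ⟨Y₀, hY₀⟩ := hF (ε / 2) (by positivity)
  refine ⟨max Y₀ 1, ?_⟩
  intro Y hY
  have hY1 : 1 ≤ Y := le_trans (le_max_right _ _) hY
  have hYr : (1 : ℝ) ≤ (Y : ℝ) := by exact_mod_cast hY1
  have hYp : (0 : ℝ) < (Y : ℝ) ^ 2 := by positivity
  obtain ⟨F, hF'⟩ : ∃ F : Finset (ℕ × ℕ), F = (Icc 1 Y ×ˢ Icc 1 Y).filter fun a : ℕ × ℕ =>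
      β ^ 3 * (a.1 ^ 2 + a.2 ^ 2) ∈ SB := ⟨_, rfl⟩
  obtain ⟨G, hG⟩ : ∃ G : Finset (ℕ × ℕ), G = (Icc 1 Y ×ˢ Icc 1 Y).filter fun a : ℕ × ℕ =>
      β ^ 3 * (a.1 ^ 2 + a.2 ^ 2) ∈ SA ∧ β ^ 3 * (a.1 ^ 2 + a.2 ^ 2) ∉ SB := ⟨_, rfl⟩
  rw [← hG]
  have hbad : (F.card : ℝ) ≤ ε / 2 * (Y : ℝ) ^ 2 := by
    rw [hF']
    exact hY₀ Y (le_trans (le_max_left _ _) hY)
  have hsum : F.card + G.card = Y * Y := by
    have h1 : G = (Icc 1 Y ×ˢ Icc 1 Y).filter fun a : ℕ × ℕ =>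
        ¬ (β ^ 3 * (a.1 ^ 2 + a.2 ^ 2) ∈ SB) := by
      rw [hG]
      refine filter_congr fun a ha => ?_
      rw [mem_product, mem_Icc, mem_Icc] at ha
      exact ⟨fun h => h.2, fun h => ⟨hSA a.1 a.2 ha.1.1 ha.2.1, h⟩⟩
    have h5 := card_filter_add_card_filter_not (s := Icc 1 Y ×ˢ Icc 1 Y)
      (fun a : ℕ × ℕ => β ^ 3 * (a.1 ^ 2 + a.2 ^ 2) ∈ SB)
    rw [← h1, ← hF', card_product, Nat.card_Icc] at h5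
    have h6 : Y + 1 - 1 = Y := by omega
    rw [h6] at h5
    exact h5
  have hsumr : (F.card : ℝ) + (G.card : ℝ) = (Y : ℝ) ^ 2 := by
    have h7 : ((F.card + G.card : ℕ) : ℝ) = ((Y * Y : ℕ) : ℝ) := by rw [hsum]
    push_cast at h7
    rw [h7]
    ring
  rw [Real.dist_eq]
  have h8 : (G.card : ℝ) / (Y : ℝ) ^ 2 - 1 = -((F.card : ℝ) / (Y : ℝ) ^ 2) := by
    field_simp
    linarith
  rw [h8, abs_neg, abs_of_nonneg (by positivity), div_lt_iff₀ hYp]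
  nlinarith

end Pool.Agent.H34.PS
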