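import Pool.Agent.H85.PS.Targets

/-!
Board psv_modules (MP_3cf473_nt), row DDV: degree and order at zero of the determinant.
-/

set_option autoImplicit false

open Polynomial Finset Pool.Agent.H85.PS

namespace Pool.Agent.H34.PS

theorem zero_mem_II (s D : ℕ) : (0 : Fin s → ℕ) ∈ II s D := by
  unfold II
  rw [mem_filter, Fintype.mem_piFinset]
  exact ⟨fun _ => by simp, by simp⟩

theorem sum_adj (s D : ℕ) (M : Matrix (Fin (MM s D)) (Fin (MM s D)) ℚ[X])
    (j0 j : Fin (MM s D)) :
    ∑ i, M.adjugate j0 i * M i j = if j0 = j then M.det else 0 := by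
  have h := congrFun (congrFun (Matrix.adjugate_mul M) j0) j
  rw [Matrix.mul_apply] at h
  rw [h, Matrix.smul_apply, Matrix.one_apply, smul_eq_mul]
  split_ifs <;> simp

theorem pf_DDV (h1 : T_SPD) (h2 : T_EVI) : T_DDV := by
  intro s D m T b A hS hD hX
  constructor
  · rw [Dt, Matrix.det_apply]
    refine Polynomial.natDegree_sum_le_of_forall_le _ _ ?_
    intro σ _
    refine (Polynomial.natDegree_smul_le _ _).trans ?_
    refine (Polynomial.natDegree_prod_le _ _).trans ?_
    calc ∑ i : Fin (MM s D), natDegree
          ((Matrix.of fun i j : Fin (MM s D) => nabI b i A (Jf s D j)) (σ i) i)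
        ≤ ∑ _i : Fin (MM s D), (m + MM s D * s) := by
          refine sum_le_sum fun i _ => ?_
          rw [Matrix.of_apply]
          refine ((h1 s D m b A hS hD (σ i)).2 (Jf s D i)).trans ?_
          have h3 : (σ i : ℕ) ≤ MM s D := (σ i).2.le
          have h4 := Nat.mul_le_mul_right s h3
          omega
      _ = MM s D * m + MM s D * MM s D * s := by
          rw [sum_const, card_univ, Fintype.card_fin, smul_eq_mul]
          ring
  · set M : Matrix (Fin (MM s D)) (Fin (MM s D)) ℚ[X] :=
      Matrix.of fun i j : Fin (MM s D) => nabI b i A (Jf s D j) with hM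
    have hdet : Dt b D A = M.det := rfl
    let j0 : Fin (MM s D) := (II s D).equivFin ⟨0, zero_mem_II s D⟩
    have hJ : ∀ e ∈ II s D, ∑ i, M.adjugate j0 i * nabI b i A e =
        if e = 0 then M.det else 0 := by
      intro e he
      have hj : Jf s D ((II s D).equivFin ⟨e, he⟩) = e := by
        unfold Jf
        rw [Equiv.symm_apply_apply]
      have h3 := sum_adj s D M j0 ((II s D).equivFin ⟨e, he⟩)
      have h4 : ∀ i, M i ((II s D).equivFin ⟨e, he⟩) = nabI b i A e := by
        intro i
        rw [hM, Matrix.of_apply, hj]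
      rw [sum_congr rfl fun i _ => by rw [h4 i]] at h3
      rw [h3]
      by_cases h5 : e = 0
      · subst h5
        rw [if_pos rfl, if_pos rfl]
      · rw [if_neg h5, if_neg]
        intro h6
        apply h5
        have h7 := (II s D).equivFin.injective h6
        exact (congrArg Subtype.val h7).symm
    have hev : ((M.det : ℚ[X]) : PowerSeries ℚ) =
        ∑ i : Fin (MM s D), ((M.adjugate j0 i : ℚ[X]) : PowerSeries ℚ) *
          evf b D (nabI b i A) := by
      have h3 : ∀ i : Fin (MM s D), ((M.adjugate j0 i : ℚ[X]) : PowerSeries ℚ) *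
          evf b D (nabI b i A) = ∑ e ∈ II s D,
            ((M.adjugate j0 i * nabI b i A e : ℚ[X]) : PowerSeries ℚ) *
              ∏ k, lg (b k) ^ e k := by
        intro i
        unfold evf
        rw [mul_sum]
        refine sum_congr rfl fun e _ => ?_
        rw [Polynomial.coe_mul, mul_assoc]
      rw [sum_congr rfl fun i _ => h3 i, sum_comm]
      have h4 : ∀ e ∈ II s D, ∑ i : Fin (MM s D),
          ((M.adjugate j0 i * nabI b i A e : ℚ[X]) : PowerSeries ℚ) *
              ∏ k, lg (b k) ^ e k =
          if e = 0 then ((M.det : ℚ[X]) : PowerSeries ℚ) else 0 := by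
        intro e he
        rw [← sum_mul]
        have h5 : ∑ i : Fin (MM s D),
            ((M.adjugate j0 i * nabI b i A e : ℚ[X]) : PowerSeries ℚ) =
            ((∑ i : Fin (MM s D), M.adjugate j0 i * nabI b i A e : ℚ[X]) : PowerSeries ℚ) :=
          (map_sum (Polynomial.coeToPowerSeries.ringHom (R := ℚ))
            (fun i : Fin (MM s D) => M.adjugate j0 i * nabI b i A e) univ).symm
        rw [h5, hJ e he]
        by_cases h6 : e = 0
        · subst h6
          rw [if_pos rfl, if_pos rfl]
          simp
        · rw [if_neg h6, if_neg h6]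
          simp
      rw [sum_congr rfl h4, sum_ite_eq' (II s D) 0, if_pos (zero_mem_II s D)]
    have hdiv : (PowerSeries.X : PowerSeries ℚ) ^ (T + 1 - MM s D) ∣
        ((M.det : ℚ[X]) : PowerSeries ℚ) := by
      rw [hev]
      refine dvd_sum fun i _ => ?_
      refine Dvd.dvd.mul_left ?_ _
      refine dvd_trans (pow_dvd_pow _ ?_) (h2 s D T b A hS hX i)
      have := i.2
      omega
    rw [hdet, Polynomial.X_pow_dvd_iff]
    rw [PowerSeries.X_pow_dvd_iff] at hdiv
    intro d hd
    have h3 := hdiv d hd
    rwa [Polynomial.coeff_coe] at h3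

end Pool.Agent.H34.PS
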