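import Pool.Agent.H85.PS.Targets

/-!
Board psv_modules (MP_3cf473_nt), row TAL: the Taylor series of the logarithm.
-/

set_option autoImplicit false

open Polynomial Finset Pool.Agent.H85.PS Filter Topology

namespace Pool.Agent.H34.PS

theorem iter_inv (b : ℂ) (n : ℕ) (z : ℂ) :
    iteratedDeriv n (fun z : ℂ => b * (b * z + 1)⁻¹) z =
      (-1) ^ n * n.factorial * b ^ (n + 1) * ((b * z + 1) ^ (n + 1))⁻¹ := by
  rw [iteratedDeriv_const_mul_field, iteratedDeriv_eq_iterate, iter_deriv_inv_linear]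
  have h1 : (b * z + 1) ^ (-1 - n : ℤ) = ((b * z + 1) ^ (n + 1))⁻¹ := by
    rw [show (-1 - n : ℤ) = -((n + 1 : ℕ) : ℤ) by push_cast; ring, zpow_neg, zpow_natCast]
  simp only [h1]
  ring

theorem pf_TAL : T_TAL := by
  intro b z0 hu
  have hu0 : (1 + b * z0 : ℚ) ≠ 0 := hu.ne'
  have hslit : (1 + (b : ℂ) * (z0 : ℂ)) ∈ Complex.slitPlane := by
    left
    have h1 : (1 + (b : ℂ) * (z0 : ℂ)) = (((1 + b * z0 : ℚ) : ℝ) : ℂ) := by push_cast; ring
    rw [h1, Complex.ofReal_re]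
    exact_mod_cast hu
  ext j
  unfold Tay
  rw [PowerSeries.coeff_mk, map_add, PowerSeries.coeff_C, PowerSeries.coeff_map]
  unfold lam lg
  rw [PowerSeries.coeff_mk]
  rcases j with _ | n
  · simp
  · rw [iteratedDeriv_succ', if_neg (Nat.succ_ne_zero n), zero_add]
    have hev : deriv (fun z => Complex.log (1 + (b : ℂ) * z)) =ᶠ[𝓝 (z0 : ℂ)]
        fun z => (b : ℂ) * ((b : ℂ) * z + 1)⁻¹ := by
      have hc : ContinuousAt (fun z : ℂ => 1 + (b : ℂ) * z) (z0 : ℂ) := by fun_prop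
      have h2 : ∀ᶠ z in 𝓝 (z0 : ℂ), (1 + (b : ℂ) * z) ∈ Complex.slitPlane :=
        hc.eventually_mem (Complex.isOpen_slitPlane.mem_nhds hslit)
      refine h2.mono fun z hz => ?_
      have h3 : HasDerivAt (fun z : ℂ => 1 + (b : ℂ) * z) (b : ℂ) z := by
        have h4 := ((hasDerivAt_id z).const_mul (b : ℂ)).const_add 1
        rw [mul_one] at h4
        exact h4
      rw [(h3.clog hz).deriv, div_eq_mul_inv, add_comm 1 ((b : ℂ) * z)]
    rw [hev.iteratedDeriv_eq n, iter_inv]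
    have hne : (b : ℂ) * z0 + 1 ≠ 0 := by
      rw [add_comm]
      exact Complex.slitPlane_ne_zero hslit
    have hn1 : ((n : ℂ) + 1) ≠ 0 := Nat.cast_add_one_ne_zero n
    have hfac : ((n.factorial : ℕ) : ℂ) ≠ 0 := Nat.cast_ne_zero.2 (Nat.factorial_ne_zero n)
    simp only [eq_ratCast]
    push_cast
    rw [Nat.factorial_succ, add_comm (1 : ℂ) ((b : ℂ) * z0), div_pow]
    push_cast
    field_simp
    ring

end Pool.Agent.H34.PS
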